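import Pool.Agent.H281R3.Cartan.Defs

/-! The two-dimensional complex Lie group `ℂ ⋉ ℂ`, with `(a, b) (c, d) = (a + c, b + exp(a) d)`. -/

set_option autoImplicit false

open scoped Manifold ContDiff Topology
open Set VectorField

namespace Pool.Agent.H281R3.Cartan

/-- The group `ℂ ⋉ ℂ`. -/
def Aff : Type := ℂ × ℂ

namespace Aff

noncomputable instance : TopologicalSpace Aff := inferInstanceAs (TopologicalSpace (ℂ × ℂ))
instance : T2Space Aff := inferInstanceAs (T2Space (ℂ × ℂ))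
instance : SecondCountableTopology Aff := inferInstanceAs (SecondCountableTopology (ℂ × ℂ))
noncomputable instance : ChartedSpace (ℂ × ℂ) Aff := inferInstanceAs (ChartedSpace (ℂ × ℂ) (ℂ × ℂ))
instance : IsManifold 𝓘(ℂ, ℂ × ℂ) ω Aff := inferInstanceAs (IsManifold 𝓘(ℂ, ℂ × ℂ) ω (ℂ × ℂ))

noncomputable instance : Group Aff where
  mul p q := ((p.1 + q.1, p.2 + Complex.exp p.1 * q.2) : ℂ × ℂ)
  one := ((0, 0) : ℂ × ℂ)
  inv p := ((-p.1, -(Complex.exp (-p.1) * p.2)) : ℂ × ℂ)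
  mul_assoc p q r := by
    apply Prod.ext
    · change (p.1 + q.1) + r.1 = p.1 + (q.1 + r.1); ring
    · change (p.2 + Complex.exp p.1 * q.2) + Complex.exp (p.1 + q.1) * r.2 =
        p.2 + Complex.exp p.1 * (q.2 + Complex.exp q.1 * r.2)
      rw [Complex.exp_add]; ring
  one_mul p := by
    apply Prod.ext
    · change (0 : ℂ) + p.1 = p.1; ring
    · change (0 : ℂ) + Complex.exp 0 * p.2 = p.2
      rw [Complex.exp_zero]; ring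
  mul_one p := by
    apply Prod.ext
    · change p.1 + (0 : ℂ) = p.1; ring
    · change p.2 + Complex.exp p.1 * (0 : ℂ) = p.2
      ring
  inv_mul_cancel p := by
    apply Prod.ext
    · change -p.1 + p.1 = (0 : ℂ); ring
    · change -(Complex.exp (-p.1) * p.2) + Complex.exp (-p.1) * p.2 = (0 : ℂ)
      ring

lemma mul_def (p q : Aff) :
    p * q = ((p.1 + q.1, p.2 + Complex.exp p.1 * q.2) : ℂ × ℂ) := rfl
lemma one_def : (1 : Aff) = ((0, 0) : ℂ × ℂ) := rfl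
lemma inv_def (p : Aff) : p⁻¹ = ((-p.1, -(Complex.exp (-p.1) * p.2)) : ℂ × ℂ) := rfl

noncomputable instance : LieGroup 𝓘(ℂ, ℂ × ℂ) ω Aff where
  contMDiff_mul := by
    have h1 : ContDiff ℂ ω (fun q : (ℂ × ℂ) × (ℂ × ℂ) =>
        ((q.1.1 + q.2.1, q.1.2 + Complex.exp q.1.1 * q.2.2) : ℂ × ℂ)) := by
      fun_prop
    have h2 : ContMDiff (𝓘(ℂ, ℂ × ℂ).prod 𝓘(ℂ, ℂ × ℂ)) 𝓘(ℂ, (ℂ × ℂ) × (ℂ × ℂ)) ω
        (fun p : (ℂ × ℂ) × (ℂ × ℂ) => (p : (ℂ × ℂ) × (ℂ × ℂ))) :=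
      contMDiff_fst.prodMk_space contMDiff_snd
    exact h1.contMDiff.comp h2
  contMDiff_inv := by
    have h1 : ContDiff ℂ ω (fun q : ℂ × ℂ =>
        ((-q.1, -(Complex.exp (-q.1) * q.2)) : ℂ × ℂ)) := by
      fun_prop
    exact h1.contMDiff

/-- derivative of left translation -/
lemma mulInvariantVectorField_eq (v : GroupLieAlgebra 𝓘(ℂ, ℂ × ℂ) Aff) (g : Aff) :
    (mulInvariantVectorField v g : ℂ × ℂ) =
      ((v : ℂ × ℂ).1, Complex.exp g.1 * (v : ℂ × ℂ).2) := by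
  have h : HasFDerivAt (fun x : ℂ × ℂ => ((g.1 + x.1, g.2 + Complex.exp g.1 * x.2) : ℂ × ℂ))
      ((ContinuousLinearMap.fst ℂ ℂ ℂ).prod (Complex.exp g.1 • ContinuousLinearMap.snd ℂ ℂ ℂ))
      (0, 0) := by
    apply HasFDerivAt.prodMk
    · exact (ContinuousLinearMap.fst ℂ ℂ ℂ).hasFDerivAt.const_add g.1
    · have := ((ContinuousLinearMap.snd ℂ ℂ ℂ).hasFDerivAt (x := ((0, 0) : ℂ × ℂ))).const_mul
        (Complex.exp g.1)
      exact this.const_add g.2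
  have h2 : mfderiv 𝓘(ℂ, ℂ × ℂ) 𝓘(ℂ, ℂ × ℂ) (fun x : Aff => g * x) (1 : Aff) =
      ((ContinuousLinearMap.fst ℂ ℂ ℂ).prod (Complex.exp g.1 • ContinuousLinearMap.snd ℂ ℂ ℂ)) := by
    have h3 : mfderiv 𝓘(ℂ, ℂ × ℂ) 𝓘(ℂ, ℂ × ℂ)
        (fun x : ℂ × ℂ => ((g.1 + x.1, g.2 + Complex.exp g.1 * x.2) : ℂ × ℂ)) ((0, 0) : ℂ × ℂ) =
        ((ContinuousLinearMap.fst ℂ ℂ ℂ).prod (Complex.exp g.1 • ContinuousLinearMap.snd ℂ ℂ ℂ)) := by
      rw [mfderiv_eq_fderiv]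
      exact h.fderiv
    exact h3
  rw [mulInvariantVectorField, h2]
  rfl

lemma mlieBracket_self_eq {E : Type} [NormedAddCommGroup E] [NormedSpace ℂ E]
    (V W : ∀ x : E, TangentSpace 𝓘(ℂ, E) x) (x : E) :
    mlieBracket 𝓘(ℂ, E) V W x = lieBracket ℂ V W x := by
  rw [← mlieBracketWithin_univ, mlieBracketWithin_eq_lieBracketWithin]
  exact congrFun (lieBracketWithin_univ (𝕜 := ℂ) (V := (V : E → E)) (W := (W : E → E))) x

lemma lieBr_ne : lieBr (ℂ × ℂ) Aff (1, 0) (0, 1) ≠ 0 := by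
  have key : lieBr (ℂ × ℂ) Aff (1, 0) (0, 1) = (0, 1) := by
    have e1 : (mulInvariantVectorField (I := 𝓘(ℂ, ℂ × ℂ)) (G := Aff)
        (((1, 0) : ℂ × ℂ) : GroupLieAlgebra 𝓘(ℂ, ℂ × ℂ) Aff) : ℂ × ℂ → ℂ × ℂ) =
        fun g => (1, 0) := by
      funext g
      have := mulInvariantVectorField_eq
        (((1, 0) : ℂ × ℂ) : GroupLieAlgebra 𝓘(ℂ, ℂ × ℂ) Aff) g
      refine this.trans ?_
      change (((1 : ℂ), Complex.exp g.1 * 0) : ℂ × ℂ) = (1, 0)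
      rw [mul_zero]
    have e2 : (mulInvariantVectorField (I := 𝓘(ℂ, ℂ × ℂ)) (G := Aff)
        (((0, 1) : ℂ × ℂ) : GroupLieAlgebra 𝓘(ℂ, ℂ × ℂ) Aff) : ℂ × ℂ → ℂ × ℂ) =
        fun g => (0, Complex.exp g.1) := by
      funext g
      have := mulInvariantVectorField_eq
        (((0, 1) : ℂ × ℂ) : GroupLieAlgebra 𝓘(ℂ, ℂ × ℂ) Aff) g
      refine this.trans ?_
      change (((0 : ℂ), Complex.exp g.1 * 1) : ℂ × ℂ) = (0, Complex.exp g.1)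
      rw [mul_one]
    have e3 : lieBr (ℂ × ℂ) Aff (1, 0) (0, 1) =
        mlieBracket 𝓘(ℂ, ℂ × ℂ) (mulInvariantVectorField (I := 𝓘(ℂ, ℂ × ℂ)) (G := Aff)
        (((1, 0) : ℂ × ℂ) : GroupLieAlgebra 𝓘(ℂ, ℂ × ℂ) Aff))
        (mulInvariantVectorField (I := 𝓘(ℂ, ℂ × ℂ)) (G := Aff)
        (((0, 1) : ℂ × ℂ) : GroupLieAlgebra 𝓘(ℂ, ℂ × ℂ) Aff)) (1 : Aff) := rfl
    have e4 : lieBr (ℂ × ℂ) Aff (1, 0) (0, 1) =
        mlieBracket 𝓘(ℂ, ℂ × ℂ) (fun _ : ℂ × ℂ => ((1, 0) : ℂ × ℂ))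
          (fun g : ℂ × ℂ => ((0, Complex.exp g.1) : ℂ × ℂ)) ((0, 0) : ℂ × ℂ) := by
      rw [e3]
      exact congrArg₂ (fun (V W : ℂ × ℂ → ℂ × ℂ) =>
        mlieBracket 𝓘(ℂ, ℂ × ℂ) V W ((0, 0) : ℂ × ℂ)) e1 e2
    have e5 : mlieBracket 𝓘(ℂ, ℂ × ℂ) (fun _ : ℂ × ℂ => ((1, 0) : ℂ × ℂ))
          (fun g : ℂ × ℂ => ((0, Complex.exp g.1) : ℂ × ℂ)) ((0, 0) : ℂ × ℂ) =
        lieBracket ℂ (fun _ : ℂ × ℂ => ((1, 0) : ℂ × ℂ))
          (fun g : ℂ × ℂ => ((0, Complex.exp g.1) : ℂ × ℂ)) ((0, 0) : ℂ × ℂ) := by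
      exact mlieBracket_self_eq _ _ _
    rw [e4, e5, lieBracket]
    have d1 : HasFDerivAt (fun g : ℂ × ℂ => ((0, Complex.exp g.1) : ℂ × ℂ))
        ((0 : ℂ × ℂ →L[ℂ] ℂ).prod (Complex.exp 0 • ContinuousLinearMap.fst ℂ ℂ ℂ))
        ((0, 0) : ℂ × ℂ) := by
      apply HasFDerivAt.prodMk
      · exact hasFDerivAt_const _ _
      · have := ((ContinuousLinearMap.fst ℂ ℂ ℂ).hasFDerivAt (x := ((0, 0) : ℂ × ℂ))).cexp
        exact this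
    have d2 : fderiv ℂ (fun _ : ℂ × ℂ => ((1, 0) : ℂ × ℂ)) ((0, 0) : ℂ × ℂ) = 0 := by simp
    rw [d1.fderiv, d2]
    simp
  rw [key]
  simp

end Aff

end Pool.Agent.H281R3.Cartan
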