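import Pool.Agent.H281R3.Cartan.Main

/-! The standard parallelism of a complex torus as a Cartan geometry, and the conclusion. -/

set_option autoImplicit false
set_option linter.unusedSectionVars false

open scoped Manifold ContDiff Topology
open Set

attribute [-instance] TopCat.of.chartedSpace

namespace Pool.Agent.H281R3.Cartan

section

variable {EG : Type} [NormedAddCommGroup EG] [NormedSpace ℂ EG]
  {G : Type} [TopologicalSpace G] [ChartedSpace EG G] [Group G]

lemma Ad_one : Ad EG (1 : G) = ContinuousLinearMap.id ℂ EG := by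
  have h : (fun x : G => (1 : G) * x * (1 : G)⁻¹) = id := by
    funext x; simp
  rw [Ad, h]
  exact mfderiv_id

variable {V : Type} [NormedAddCommGroup V] [NormedSpace ℂ V] [FiniteDimensional ℂ V]
  (L : AddSubgroup V) [DiscreteTopology L]

/-- the geometry given by the translation invariant parallelism -/
noncomputable def torGeom (ι : Unit →* G) (T : V ≃L[ℂ] EG) :
    CartanGeometry EG Unit ι V (Tor L) where
  EP := V
  P := Tor L
  proj := id
  act p _ := p
  act_one _ := rfl
  act_mul _ _ _ := rfl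
  holomorphic_proj := contMDiff_id
  holomorphic_act := contMDiff_fst
  locally_trivial m := by
    refine ⟨univ, isOpen_univ, trivial,
      (Homeomorph.prodPUnit (Tor L)).symm.toOpenPartialHomeomorph, ?_, ?_, ?_, ?_, ?_, ?_⟩
    · simp
    · simp
    · exact (contMDiff_id.prodMk contMDiff_const).contMDiffOn
    · exact contMDiff_fst.contMDiffOn
    · intro p _; rfl
    · intro p _ h
      exact ⟨trivial, rfl⟩
  form _ := (T : V →L[ℂ] EG)
  holomorphic_form c hc := by
    have : coordForm EG G (P := Tor L) (fun _ => (T : V →L[ℂ] EG)) c =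
        fun _ => (T : V →L[ℂ] EG) := by
      funext x
      have h1 : coordForm EG G (P := Tor L) (fun _ => (T : V →L[ℂ] EG)) c x =
        (T : V →L[ℂ] EG).comp (mfderiv 𝓘(ℂ, V) 𝓘(ℂ, V) c.symm x : V →L[ℂ] V) := rfl
      rw [h1, Tor.mfderiv_symm L c hc x]
      exact ContinuousLinearMap.comp_id _
    rw [this]
    exact contDiffOn_const
  bijective_form _ := T.bijective
  equivariant p h v := by
    have h1 : (ι h)⁻¹ = 1 := by
      have : h = 1 := rfl
      rw [this, map_one, inv_one]
    have h2 : (mfderiv 𝓘(ℂ, V) 𝓘(ℂ, V) (fun q : Tor L => q) p : V →L[ℂ] V) =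
        ContinuousLinearMap.id ℂ V := mfderiv_id
    have h3 : Ad EG (ι h)⁻¹ = ContinuousLinearMap.id ℂ EG := by rw [h1]; exact Ad_one
    have h4 : (T : V →L[ℂ] EG) ((mfderiv 𝓘(ℂ, V) 𝓘(ℂ, V) (fun q : Tor L => q) p : V →L[ℂ] V) v) =
        (Ad EG (ι h)⁻¹ : EG →L[ℂ] EG) ((T : V →L[ℂ] EG) v) := by
      rw [h2]
      exact (congrArg (fun S : EG →L[ℂ] EG => S ((T : V →L[ℂ] EG) v)) h3).symm
    exact h4
  vertical p A := by
    have hA : A = 0 := Subsingleton.elim (α := Unit) _ _
    subst hA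
    have e1 : (mfderiv 𝓘(ℂ, Unit) 𝓘(ℂ, V) (fun _ : Unit => p) 1 : Unit →L[ℂ] V) 0 = 0 := map_zero _
    have e2 : (mfderiv 𝓘(ℂ, Unit) 𝓘(ℂ, EG) ι 1 : Unit →L[ℂ] EG) 0 = 0 := map_zero _
    have e3 : (T : V →L[ℂ] EG)
        ((mfderiv 𝓘(ℂ, Unit) 𝓘(ℂ, V) (fun _ : Unit => p) 1 : Unit →L[ℂ] V) 0) =
        (mfderiv 𝓘(ℂ, Unit) 𝓘(ℂ, EG) ι 1 : Unit →L[ℂ] EG) 0 := by
      rw [e1, e2]
      exact map_zero (T : V →L[ℂ] EG)
    exact e3

end

/-- the homomorphism from the trivial group -/
def triv (G : Type) [Group G] : Unit →* G := 1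

lemma isClosedLieSubgroup_triv {EG : Type} [NormedAddCommGroup EG] [NormedSpace ℂ EG]
    {G : Type} [TopologicalSpace G] [T2Space G] [ChartedSpace EG G] [Group G] :
    IsClosedLieSubgroup EG Unit (triv G) where
  holomorphic := contMDiff_const
  isClosedEmbedding := Topology.IsClosedEmbedding.of_continuous_injective_isClosedMap
    continuous_const (fun _ _ _ => rfl) (by
      intro s _
      rcases s.eq_empty_or_nonempty with rfl | ⟨x, hx⟩
      · simp
      · have : (triv G) '' s = {1} := by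
          ext y; constructor
          · rintro ⟨x, -, rfl⟩; rfl
          · rintro rfl; exact ⟨x, hx, rfl⟩
        rw [this]
        exact isClosed_singleton)
  immersion h := by
    intro a b _
    exact Subsingleton.elim (α := Unit) _ _

/-- the model space of the complex tori -/
abbrev V2 : Type := EuclideanSpace ℂ (Fin 2)

/-- the lattice of vectors with Gaussian integer coordinates -/
def gauss : AddSubgroup V2 where
  carrier := {v | ∀ i, ∃ a b : ℤ, v i = a + b * Complex.I}
  add_mem' := by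
    intro v w hv hw i
    obtain ⟨a, b, h⟩ := hv i
    obtain ⟨c, d, h'⟩ := hw i
    refine ⟨a + c, b + d, ?_⟩
    rw [PiLp.add_apply, h, h']
    push_cast; ring
  zero_mem' := fun i => ⟨0, 0, by simp⟩
  neg_mem' := by
    intro v hv i
    obtain ⟨a, b, h⟩ := hv i
    refine ⟨-a, -b, ?_⟩
    rw [PiLp.neg_apply, h]
    push_cast; ring

lemma gauss_small {v : V2} (hv : v ∈ gauss) (h : ‖v‖ < 1) : v = 0 := by
  ext i
  obtain ⟨a, b, hi⟩ := hv i
  have h1 : ‖v i‖ < 1 := lt_of_le_of_lt (PiLp.norm_apply_le v i) h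
  rw [hi] at h1
  have h2 : ((a : ℝ)) ^ 2 + (b : ℝ) ^ 2 < 1 := by
    have h3 : ‖(a : ℂ) + b * Complex.I‖ ^ 2 = (a : ℝ) ^ 2 + (b : ℝ) ^ 2 := by
      rw [← Complex.normSq_eq_norm_sq, Complex.normSq_apply]
      simp
      ring
    rw [← h3]
    have := norm_nonneg ((a : ℂ) + b * Complex.I)
    nlinarith
  have h4 : a ^ 2 + b ^ 2 < 1 := by exact_mod_cast h2
  have ha : a = 0 := by nlinarith [sq_nonneg a, sq_nonneg b, pow_eq_zero_iff (two_ne_zero) (a := a)]
  have hb : b = 0 := by nlinarith [sq_nonneg a, sq_nonneg b]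
  rw [hi, ha, hb]
  simp

instance : DiscreteTopology gauss := by
  apply discreteTopology_of_isOpen_singleton_zero
  rw [Metric.isOpen_singleton_iff]
  refine ⟨1, one_pos, ?_⟩
  intro y hy
  apply Subtype.ext
  apply gauss_small y.2
  have h1 : dist y (0 : gauss) = ‖(y : V2)‖ := by
    rw [Subtype.dist_eq, dist_eq_norm]
    simp
  rwa [h1] at hy

instance : CompactSpace (Tor gauss) := by
  constructor
  have h : (univ : Set (Tor gauss)) = Tor.q gauss '' Metric.closedBall 0 2 := by
    symm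
    rw [eq_univ_iff_forall]
    intro x
    obtain ⟨v, rfl⟩ := Tor.q_surjective x
    let l : V2 := WithLp.toLp 2 fun i =>
      ((⌊(v i).re⌋ : ℤ) : ℂ) + ((⌊(v i).im⌋ : ℤ) : ℂ) * Complex.I
    have hl : l ∈ gauss := fun i => ⟨⌊(v i).re⌋, ⌊(v i).im⌋, rfl⟩
    refine ⟨v - l, ?_, ?_⟩
    · rw [mem_closedBall_zero_iff, EuclideanSpace.norm_eq]
      have hb : ∀ i, ‖(v - l) i‖ ^ 2 ≤ 2 := by
        intro i
        have e : (v - l) i = ((Int.fract (v i).re : ℝ) : ℂ) +
            ((Int.fract (v i).im : ℝ) : ℂ) * Complex.I := by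
          rw [PiLp.sub_apply]
          apply Complex.ext
          · have : (l i).re = ⌊(v i).re⌋ := by simp [l]
            rw [Complex.sub_re, this]
            simp
          · have : (l i).im = ⌊(v i).im⌋ := by simp [l]
            rw [Complex.sub_im, this]
            simp
        have h3 : ‖(v - l) i‖ ^ 2 = Int.fract (v i).re ^ 2 + Int.fract (v i).im ^ 2 := by
          rw [e, ← Complex.normSq_eq_norm_sq, Complex.normSq_apply]
          simp
          ring
        rw [h3]
        have a1 := Int.fract_nonneg (v i).re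
        have a2 := Int.fract_nonneg (v i).im
        have b1 := (Int.fract_lt_one (v i).re).le
        have b2 := (Int.fract_lt_one (v i).im).le
        nlinarith
      have hs : (∑ i, ‖(v - l) i‖ ^ 2) ≤ 4 := by
        rw [Fin.sum_univ_two]
        linarith [hb 0, hb 1]
      calc √(∑ i, ‖(v - l) i‖ ^ 2) ≤ √4 := Real.sqrt_le_sqrt hs
        _ = 2 := by
          rw [show (4 : ℝ) = 2 ^ 2 by norm_num]
          exact Real.sqrt_sq (by norm_num)
    · rw [sub_eq_add_neg]
      exact Tor.q_add (gauss.neg_mem hl)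
  rw [h]
  exact (isCompact_closedBall _ _).image Tor.continuous_q

theorem not_flatnessConjecture : ¬ FlatnessConjecture := by
  intro h
  have hT : Module.finrank ℂ V2 = Module.finrank ℂ (ℂ × ℂ) := by simp
  let T : V2 ≃L[ℂ] ℂ × ℂ := ContinuousLinearEquiv.ofFinrankEq hT
  obtain ⟨𝒢, h𝒢⟩ := h (ℂ × ℂ) Aff Unit Unit (triv Aff) isClosedLieSubgroup_triv V2 (Tor gauss)
    ⟨Tor.kahler gauss⟩ ⟨torGeom gauss (triv Aff) T⟩
  exact Aff.lieBr_ne (abelian_of_flat 𝒢 h𝒢 _ _)

end Pool.Agent.H281R3.Cartan
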