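import Pool.Agent.H281R3.Cartan.Stmt
import Pool.Agent.H281R3.Cartan.Final

/-! From the bundled definitions to the unbundled ones, and the conclusion. -/

set_option autoImplicit false
set_option linter.unusedSectionVars false

open scoped Manifold ContDiff Topology
open Set

attribute [-instance] TopCat.of.chartedSpace

namespace Pool.Agent.H281R3.Cartan

open Pool.Agent.H281R3

/-- bundled to unbundled -/
noncomputable def unbundle {G H : CartanS.CLie} {ι : H.X →* G.X} {M : CartanS.CMfd}
    (𝒢 : CartanS.CartanGeometry G H ι M) : CartanGeometry G.E H.E ι M.E M.X where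
  EP := 𝒢.B.P.E
  P := 𝒢.B.P.X
  proj := 𝒢.B.proj
  act := 𝒢.B.act
  act_one := 𝒢.B.act_one
  act_mul := 𝒢.B.act_mul
  holomorphic_proj := 𝒢.B.holomorphic_proj
  holomorphic_act := 𝒢.B.holomorphic_act
  locally_trivial m := by
    obtain ⟨U, hU, hm, Φ, hΦ⟩ := 𝒢.B.locally_trivial m
    exact ⟨U, hU, hm, Φ, hΦ.1, hΦ.2, hΦ.3, hΦ.4, hΦ.5, hΦ.6⟩
  form p := 𝒢.form p
  holomorphic_form := 𝒢.holomorphic_form
  bijective_form := 𝒢.bijective_form
  equivariant := 𝒢.equivariant
  vertical p A := by
    have h1 := 𝒢.vertical p A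
    have h2 : 𝒢.form (𝒢.B.act p 1) = 𝒢.form p := by rw [𝒢.B.act_one]
    exact (congrArg (fun S : 𝒢.B.P.E →L[ℂ] G.E =>
      S (CartanS.D H.toCMfd 𝒢.B.P (𝒢.B.act p) 1 A)) h2).trans h1

/-- the trivial group -/
noncomputable def unitLie : CartanS.CLie where
  E := Unit
  X := Unit
  instC := chartedSpaceSelf Unit
  instM := inferInstance
  instL := unitLieGroup

/-- the group `ℂ ⋉ ℂ` -/
noncomputable def affLie : CartanS.CLie where
  E := ℂ × ℂ
  X := Aff

section

variable {V : Type} [NormedAddCommGroup V] [NormedSpace ℂ V] [FiniteDimensional ℂ V]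
  (L : AddSubgroup V) [DiscreteTopology L]

/-- complex tori -/
noncomputable def torMfd : CartanS.CMfd where
  E := V
  X := Tor L

end

/-- the geometry given by the translation invariant parallelism -/
noncomputable def torGeomS {V : Type} [NormedAddCommGroup V] [NormedSpace ℂ V]
    [FiniteDimensional ℂ V] (L : AddSubgroup V) [DiscreteTopology L] (G : CartanS.CLie)
    (ι : unitLie.X →* G.X) (T : V ≃L[ℂ] G.E) :
    CartanS.CartanGeometry G unitLie ι (torMfd L) where
  B :=
    { P := torMfd L
      proj := id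
      act := fun p _ => p
      act_one := fun _ => rfl
      act_mul := fun _ _ _ => rfl
      holomorphic_proj := contMDiff_id
      holomorphic_act := contMDiff_fst
      locally_trivial := by
        intro m
        obtain ⟨U, hU, hm, Φ, h1, h2, h3, h4, h5, h6⟩ :=
          (torGeom (G := G.X) L (ι : Unit →* G.X) T).locally_trivial m
        exact ⟨U, hU, hm, Φ, h1, h2, h3, h4, h5, h6⟩ }
  form _ := (T : V →L[ℂ] G.E)
  holomorphic_form := (torGeom (G := G.X) L (ι : Unit →* G.X) T).holomorphic_form
  bijective_form _ := T.bijective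
  equivariant := (torGeom (G := G.X) L (ι : Unit →* G.X) T).equivariant
  vertical := (torGeom (G := G.X) L (ι : Unit →* G.X) T).vertical

theorem not_flatnessConjectureS : ¬ CartanS.FlatnessConjecture := by
  intro h
  have hT : Module.finrank ℂ V2 = Module.finrank ℂ (ℂ × ℂ) := by simp
  let T : V2 ≃L[ℂ] ℂ × ℂ := ContinuousLinearEquiv.ofFinrankEq hT
  have i1 : T2Space affLie.X := inferInstanceAs (T2Space Aff)
  have i2 : SecondCountableTopology affLie.X := inferInstanceAs (SecondCountableTopology Aff)
  have i3 : T2Space (torMfd gauss).X := inferInstanceAs (T2Space (Tor gauss))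
  have i4 : CompactSpace (torMfd gauss).X := inferInstanceAs (CompactSpace (Tor gauss))
  have i5 : ConnectedSpace (torMfd gauss).X := inferInstanceAs (ConnectedSpace (Tor gauss))
  have h0 : IsClosedLieSubgroup (ℂ × ℂ) Unit (triv Aff) := isClosedLieSubgroup_triv
  have hι : CartanS.IsClosedLieSubgroup affLie unitLie (triv Aff) := ⟨h0.1, h0.2, h0.3⟩
  let k := Tor.kahler gauss
  have hk : CartanS.KahlerMetric (torMfd gauss) :=
    { herm := k.herm
      hermitian := fun x => ⟨k.add_right x, k.smul_right x, k.conj_symm x, k.pos x⟩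
      smooth := k.smooth
      closed := k.closed }
  obtain ⟨𝒢, h𝒢⟩ := h affLie unitLie (triv Aff) hι (torMfd gauss) ⟨hk⟩
    ⟨torGeomS gauss affLie (triv Aff) T⟩
  have hflat : (unbundle 𝒢).IsFlat := h𝒢
  exact Aff.lieBr_ne (abelian_of_flat (L := gauss) (unbundle 𝒢) hflat _ _)

end Pool.Agent.H281R3.Cartan
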