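import Mathlib

/-!
# Holomorphic Cartan geometries, flatness, and Kaehler metrics: definitions

Conventions. A complex manifold is a type with charts in a finite dimensional complex normed space
`E` and with complex analytic coordinate changes (`IsManifold 𝓘(ℂ, E) ω M`). In Mathlib the tangent
space `TangentSpace 𝓘(ℂ, E) x` is the vector space `E`, through the preferred chart at `x`, and
`mfderiv` is the derivative. The Lie algebra of a Lie group `G` is `GroupLieAlgebra 𝓘(ℂ, E) G`, the
tangent space at the identity with the bracket of left invariant vector fields.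
-/

set_option autoImplicit false

open scoped Manifold ContDiff Topology
open Set

namespace Pool.Agent.H281R3.Cartan

section Subgroup

variable (EG : Type) [NormedAddCommGroup EG] [NormedSpace ℂ EG]
  {G : Type} [TopologicalSpace G] [ChartedSpace EG G] [Group G]
  (EH : Type) [NormedAddCommGroup EH] [NormedSpace ℂ EH]
  {H : Type} [TopologicalSpace H] [ChartedSpace EH H] [Group H]

/-- The homomorphism `ι : H → G` identifies the complex Lie group `H` with a closed complex Lie
subgroup of the complex Lie group `G`: it is holomorphic, a homeomorphism onto a closed subset, and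
an immersion. -/
structure IsClosedLieSubgroup (ι : H →* G) : Prop where
  holomorphic : ContMDiff 𝓘(ℂ, EH) 𝓘(ℂ, EG) ω ι
  isClosedEmbedding : Topology.IsClosedEmbedding ι
  immersion : ∀ h : H, Function.Injective (mfderiv 𝓘(ℂ, EH) 𝓘(ℂ, EG) ι h)

/-- The adjoint action of `g` on the Lie algebra of `G`: the derivative at `1` of the conjugation
`x ↦ g x g⁻¹`. -/
noncomputable def Ad (g : G) :
    GroupLieAlgebra 𝓘(ℂ, EG) G →L[ℂ] GroupLieAlgebra 𝓘(ℂ, EG) G :=
  mfderiv 𝓘(ℂ, EG) 𝓘(ℂ, EG) (fun x : G => g * x * g⁻¹) 1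

end Subgroup

/-- The coordinate expression, in a chart `c` of the complex manifold `P`, of a one-form on `P` with
values in the Lie algebra of `G`: the form at the point with coordinates `x`, composed with the
derivative of the inverse chart. -/
noncomputable def coordForm (EG : Type) [NormedAddCommGroup EG] [NormedSpace ℂ EG]
    (G : Type) [TopologicalSpace G] [ChartedSpace EG G] [Group G]
    {EP : Type} [NormedAddCommGroup EP] [NormedSpace ℂ EP]
    {P : Type} [TopologicalSpace P] [ChartedSpace EP P]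
    (form : ∀ p : P, TangentSpace 𝓘(ℂ, EP) p →L[ℂ] GroupLieAlgebra 𝓘(ℂ, EG) G)
    (c : OpenPartialHomeomorph P EP) (x : EP) : EP →L[ℂ] EG :=
  (form (c.symm x)).comp (mfderiv 𝓘(ℂ, EP) 𝓘(ℂ, EP) c.symm x)

/-- The bracket of the Lie algebra of `G`, as an operation on the model space of `G`. -/
noncomputable def lieBr (EG : Type) [NormedAddCommGroup EG] [NormedSpace ℂ EG]
    (G : Type) [TopologicalSpace G] [ChartedSpace EG G] [Group G] (a b : EG) : EG :=
  @Bracket.bracket (GroupLieAlgebra 𝓘(ℂ, EG) G) (GroupLieAlgebra 𝓘(ℂ, EG) G) _ a b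

/-- A holomorphic Cartan geometry on the complex manifold `M` modelled on `G / H`, where `H` is
embedded in `G` by `ι`: a holomorphic principal right `H`-bundle `proj : P → M` with a holomorphic
one-form `form` on `P` with values in the Lie algebra of `G`. -/
structure CartanGeometry (EG : Type) [NormedAddCommGroup EG] [NormedSpace ℂ EG]
    {G : Type} [TopologicalSpace G] [ChartedSpace EG G] [Group G]
    (EH : Type) [NormedAddCommGroup EH] [NormedSpace ℂ EH]
    {H : Type} [TopologicalSpace H] [ChartedSpace EH H] [Group H] (ι : H →* G)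
    (EM : Type) [NormedAddCommGroup EM] [NormedSpace ℂ EM]
    (M : Type) [TopologicalSpace M] [ChartedSpace EM M] where
  /-- the model space of the total space -/
  EP : Type
  [normedAddCommGroup : NormedAddCommGroup EP]
  [normedSpace : NormedSpace ℂ EP]
  [finiteDimensional : FiniteDimensional ℂ EP]
  /-- the total space of the principal bundle -/
  P : Type
  [topologicalSpace : TopologicalSpace P]
  [chartedSpace : ChartedSpace EP P]
  [isManifold : IsManifold 𝓘(ℂ, EP) ω P]
  /-- the bundle projection -/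
  proj : P → M
  /-- the right action of `H` on the total space, `act p h = p · h` -/
  act : P → H → P
  act_one : ∀ p, act p 1 = p
  act_mul : ∀ p h h', act p (h * h') = act (act p h) h'
  holomorphic_proj : ContMDiff 𝓘(ℂ, EP) 𝓘(ℂ, EM) ω proj
  holomorphic_act : ContMDiff (𝓘(ℂ, EP).prod 𝓘(ℂ, EH)) 𝓘(ℂ, EP) ω
    (fun q : P × H => act q.1 q.2)
  /-- local triviality: over a neighbourhood `U` of every point there is a biholomorphic map
  `Φ : proj ⁻¹ U → U × H` of the form `Φ p = (proj p, *)` with `Φ (p · h) = Φ p · h` -/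
  locally_trivial : ∀ m : M, ∃ U : Set M, IsOpen U ∧ m ∈ U ∧
    ∃ Φ : OpenPartialHomeomorph P (M × H), Φ.source = proj ⁻¹' U ∧ Φ.target = U ×ˢ univ ∧
      ContMDiffOn 𝓘(ℂ, EP) (𝓘(ℂ, EM).prod 𝓘(ℂ, EH)) ω Φ Φ.source ∧
      ContMDiffOn (𝓘(ℂ, EM).prod 𝓘(ℂ, EH)) 𝓘(ℂ, EP) ω Φ.symm Φ.target ∧
      (∀ p ∈ Φ.source, (Φ p).1 = proj p) ∧
      (∀ p ∈ Φ.source, ∀ h : H, act p h ∈ Φ.source ∧ Φ (act p h) = ((Φ p).1, (Φ p).2 * h))
  /-- the one-form of the geometry, with values in the Lie algebra of `G` -/
  form : ∀ p : P, TangentSpace 𝓘(ℂ, EP) p →L[ℂ] GroupLieAlgebra 𝓘(ℂ, EG) G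
  /-- the one-form is holomorphic: in every chart `c` of `P` its coordinate expression is -/
  holomorphic_form : ∀ c ∈ atlas EP P, ContDiffOn ℂ ω (coordForm EG G form c) c.target
  /-- the one-form is an isomorphism on every tangent space -/
  bijective_form : ∀ p, Function.Bijective (form p)
  /-- `R_h^* form = Ad(h⁻¹) form` -/
  equivariant : ∀ (p : P) (h : H) (v : TangentSpace 𝓘(ℂ, EP) p),
    form (act p h) (mfderiv 𝓘(ℂ, EP) 𝓘(ℂ, EP) (fun q => act q h) p v) =
      Ad EG (ι h)⁻¹ (form p v)
  /-- on the fundamental vector field of an element `A` of the Lie algebra of `H`, whose value at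
  `p` is the derivative at `1` of `h ↦ p · h` applied to `A`, the form takes the value `A` -/
  vertical : ∀ (p : P) (A : GroupLieAlgebra 𝓘(ℂ, EH) H),
    form (act p 1) (mfderiv 𝓘(ℂ, EH) 𝓘(ℂ, EP) (fun h => act p h) 1 A) =
      (mfderiv 𝓘(ℂ, EH) 𝓘(ℂ, EG) ι 1 A : EG)

namespace CartanGeometry

attribute [instance] normedAddCommGroup normedSpace finiteDimensional topologicalSpace chartedSpace
  isManifold

variable {EG : Type} [NormedAddCommGroup EG] [NormedSpace ℂ EG]
  {G : Type} [TopologicalSpace G] [ChartedSpace EG G] [Group G]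
  {EH : Type} [NormedAddCommGroup EH] [NormedSpace ℂ EH]
  {H : Type} [TopologicalSpace H] [ChartedSpace EH H] [Group H] {ι : H →* G}
  {EM : Type} [NormedAddCommGroup EM] [NormedSpace ℂ EM]
  {M : Type} [TopologicalSpace M] [ChartedSpace EM M]

/-- The geometry is flat: the curvature `dω + ½[ω, ω]` of its one-form `ω` vanishes, that is,
`dω(u, v) + [ω(u), ω(v)] = 0` in every chart of the total space, where
`dω(u, v) = (∂_u ω)(v) - (∂_v ω)(u)` for constant vector fields `u`, `v`. -/
def IsFlat (𝒢 : CartanGeometry EG EH ι EM M) : Prop :=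
  ∀ c ∈ atlas 𝒢.EP 𝒢.P, ∀ x ∈ c.target, ∀ u v : 𝒢.EP,
    fderiv ℂ (coordForm EG G 𝒢.form c) x u v - fderiv ℂ (coordForm EG G 𝒢.form c) x v u +
      lieBr EG G (coordForm EG G 𝒢.form c x u) (coordForm EG G 𝒢.form c x v) = 0

end CartanGeometry

/-- A Kaehler metric on the complex manifold `M`: a smooth field of positive definite hermitian
forms on the tangent spaces whose fundamental two-form, the imaginary part, is closed. -/
structure KahlerMetric (EM : Type) [NormedAddCommGroup EM] [NormedSpace ℂ EM]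
    (M : Type) [TopologicalSpace M] [ChartedSpace EM M] where
  /-- the hermitian form on the tangent space at `x`, conjugate linear in the first argument -/
  herm : ∀ x : M, TangentSpace 𝓘(ℂ, EM) x → TangentSpace 𝓘(ℂ, EM) x → ℂ
  add_right : ∀ x u v w, herm x u (v + w) = herm x u v + herm x u w
  smul_right : ∀ x u (a : ℂ) v, herm x u (a • v) = a * herm x u v
  conj_symm : ∀ x u v, (starRingEnd ℂ) (herm x v u) = herm x u v
  pos : ∀ x u, u ≠ 0 → 0 < (herm x u u).re
  /-- in every chart the hermitian form has smooth coefficients -/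
  smooth : ∀ c ∈ atlas EM M, ∀ u v : EM, ContDiffOn ℝ ∞
    (fun y : EM => herm (c.symm y) (mfderiv 𝓘(ℂ, EM) 𝓘(ℂ, EM) c.symm y u)
      (mfderiv 𝓘(ℂ, EM) 𝓘(ℂ, EM) c.symm y v)) c.target
  /-- in every chart the two-form `Ω(u, v) = Im herm (u, v)` satisfies
  `∂_u Ω(v, w) + ∂_v Ω(w, u) + ∂_w Ω(u, v) = 0` for constant vector fields -/
  closed : ∀ c ∈ atlas EM M, ∀ y ∈ c.target, ∀ u v w : EM,
    fderiv ℝ (fun y : EM => (herm (c.symm y) (mfderiv 𝓘(ℂ, EM) 𝓘(ℂ, EM) c.symm y v)
        (mfderiv 𝓘(ℂ, EM) 𝓘(ℂ, EM) c.symm y w)).im) y u +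
      fderiv ℝ (fun y : EM => (herm (c.symm y) (mfderiv 𝓘(ℂ, EM) 𝓘(ℂ, EM) c.symm y w)
        (mfderiv 𝓘(ℂ, EM) 𝓘(ℂ, EM) c.symm y u)).im) y v +
      fderiv ℝ (fun y : EM => (herm (c.symm y) (mfderiv 𝓘(ℂ, EM) 𝓘(ℂ, EM) c.symm y u)
        (mfderiv 𝓘(ℂ, EM) 𝓘(ℂ, EM) c.symm y v)).im) y w = 0

/-- The assertion of the question: for every complex Lie group `G`, every closed complex Lie
subgroup `H` of `G` and every compact Kaehler manifold `M` (compact, connected, Hausdorff), if `M`
carries a holomorphic `G/H`-geometry then it carries a flat holomorphic `G/H`-geometry. -/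
def FlatnessConjecture : Prop :=
  ∀ (EG : Type) [NormedAddCommGroup EG] [NormedSpace ℂ EG] [FiniteDimensional ℂ EG]
    (G : Type) [TopologicalSpace G] [T2Space G] [SecondCountableTopology G] [ChartedSpace EG G]
    [Group G] [LieGroup 𝓘(ℂ, EG) ω G]
    (EH : Type) [NormedAddCommGroup EH] [NormedSpace ℂ EH] [FiniteDimensional ℂ EH]
    (H : Type) [TopologicalSpace H] [ChartedSpace EH H] [Group H] [LieGroup 𝓘(ℂ, EH) ω H]
    (ι : H →* G), IsClosedLieSubgroup EG EH ι →
  ∀ (EM : Type) [NormedAddCommGroup EM] [NormedSpace ℂ EM] [FiniteDimensional ℂ EM]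
    (M : Type) [TopologicalSpace M] [T2Space M] [CompactSpace M] [ConnectedSpace M]
    [ChartedSpace EM M] [IsManifold 𝓘(ℂ, EM) ω M], Nonempty (KahlerMetric EM M) →
  Nonempty (CartanGeometry EG EH ι EM M) →
    ∃ 𝒢 : CartanGeometry EG EH ι EM M, 𝒢.IsFlat

end Pool.Agent.H281R3.Cartan
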