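import Pool.Agent.H281R3.Cartan.Torus
import Pool.Agent.H281R3.Cartan.Aff

/-! Cartan geometries with trivial structure group on complex tori. -/

set_option autoImplicit false
set_option linter.unusedSectionVars false

open scoped Manifold ContDiff Topology
open Set

attribute [-instance] TopCat.of.chartedSpace

namespace Pool.Agent.H281R3.Cartan

noncomputable instance unitLieGroup : LieGroup 𝓘(ℂ, Unit) ω Unit where
  contMDiff_mul := contMDiff_const (c := ())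
  contMDiff_inv := contMDiff_const (c := ())

section

variable {EG : Type} [NormedAddCommGroup EG] [NormedSpace ℂ EG]
  {G : Type} [TopologicalSpace G] [ChartedSpace EG G] [Group G] {ι : Unit →* G}
  {EM : Type} [NormedAddCommGroup EM] [NormedSpace ℂ EM]
  {M : Type} [TopologicalSpace M] [ChartedSpace EM M]
  (𝒢 : CartanGeometry EG Unit ι EM M)

lemma proj_injective : Function.Injective 𝒢.proj := by
  intro p p' h
  obtain ⟨U, -, hm, Φ, hs, -, -, -, hΦ, -⟩ := 𝒢.locally_trivial (𝒢.proj p)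
  have hp : p ∈ Φ.source := by rw [hs]; exact hm
  have hp' : p' ∈ Φ.source := by rw [hs, mem_preimage, ← h]; exact hm
  apply Φ.injOn hp hp'
  apply Prod.ext
  · rw [hΦ p hp, hΦ p' hp', h]
  · exact Subsingleton.elim _ _

lemma symm_spec (m : M) : ∃ U : Set M, IsOpen U ∧ m ∈ U ∧ ∃ s : M → 𝒢.P,
    ContMDiffOn 𝓘(ℂ, EM) 𝓘(ℂ, 𝒢.EP) ω s U ∧ ∀ x ∈ U, 𝒢.proj (s x) = x := by
  obtain ⟨U, hU, hm, Φ, hs, ht, -, hd, hΦ, -⟩ := 𝒢.locally_trivial m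
  refine ⟨U, hU, hm, fun x => Φ.symm (x, ()), ?_, ?_⟩
  · have h1 : ContMDiff 𝓘(ℂ, EM) (𝓘(ℂ, EM).prod 𝓘(ℂ, Unit)) ω (fun x : M => (x, ())) :=
      contMDiff_id.prodMk contMDiff_const
    refine hd.comp h1.contMDiffOn ?_
    intro x hx
    rw [mem_preimage, ht]
    exact ⟨hx, trivial⟩
  · intro x hx
    have hxt : (x, ()) ∈ Φ.target := by rw [ht]; exact ⟨hx, trivial⟩
    have h2 := Φ.map_target hxt
    rw [← hΦ _ h2, Φ.right_inv hxt]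

lemma proj_surjective : Function.Surjective 𝒢.proj := by
  intro m
  obtain ⟨U, -, hm, s, -, h⟩ := symm_spec 𝒢 m
  exact ⟨s m, h m hm⟩

/-- the inverse of the projection -/
noncomputable def sec (m : M) : 𝒢.P := Function.surjInv (proj_surjective 𝒢) m

lemma proj_sec (m : M) : 𝒢.proj (sec 𝒢 m) = m := Function.surjInv_eq _ m
lemma sec_proj (p : 𝒢.P) : sec 𝒢 (𝒢.proj p) = p := proj_injective 𝒢 (proj_sec 𝒢 _)

lemma contMDiff_sec : ContMDiff 𝓘(ℂ, EM) 𝓘(ℂ, 𝒢.EP) ω (sec 𝒢) := by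
  intro m
  obtain ⟨U, hU, hm, s, hs, h⟩ := symm_spec 𝒢 m
  have h1 : ContMDiffAt 𝓘(ℂ, EM) 𝓘(ℂ, 𝒢.EP) ω s m := hs.contMDiffAt (hU.mem_nhds hm)
  apply h1.congr_of_eventuallyEq
  filter_upwards [hU.mem_nhds hm] with x hx
  apply proj_injective 𝒢
  rw [proj_sec, h x hx]

end

section

variable {EG : Type} [NormedAddCommGroup EG] [NormedSpace ℂ EG]
  {G : Type} [TopologicalSpace G] [ChartedSpace EG G] [Group G] {ι : Unit →* G}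
  {V : Type} [NormedAddCommGroup V] [NormedSpace ℂ V] {L : AddSubgroup V} [DiscreteTopology L]
  (𝒢 : CartanGeometry EG Unit ι V (Tor L))

/-- the lift of the section to the universal cover -/
noncomputable def lif (v : V) : 𝒢.P := sec 𝒢 (Tor.q L v)

lemma contMDiff_lif : ContMDiff 𝓘(ℂ, V) 𝓘(ℂ, 𝒢.EP) ω (lif 𝒢) :=
  (contMDiff_sec 𝒢).comp (Tor.contMDiff_q L)

/-- derivative of the lift -/
noncomputable def dlif (v : V) : V →L[ℂ] 𝒢.EP := mfderiv 𝓘(ℂ, V) 𝓘(ℂ, 𝒢.EP) (lif 𝒢) v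

/-- the form as a map into a fixed space -/
noncomputable def fE (p : 𝒢.P) : 𝒢.EP →L[ℂ] EG := 𝒢.form p

/-- derivative of an inverse chart -/
noncomputable def dsymm (c : OpenPartialHomeomorph 𝒢.P 𝒢.EP) (x : 𝒢.EP) : 𝒢.EP →L[ℂ] 𝒢.EP :=
  mfderiv 𝓘(ℂ, 𝒢.EP) 𝓘(ℂ, 𝒢.EP) c.symm x

/-- the form pulled back to the universal cover -/
noncomputable def pb (v : V) : V →L[ℂ] EG := (fE 𝒢 (lif 𝒢 v)).comp (dlif 𝒢 v)

lemma dlif_surjective (v : V) : Function.Surjective (dlif 𝒢 v) := by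
  intro w
  set p := lif 𝒢 v with hp
  have hproj : 𝒢.proj p = Tor.q L v := proj_sec 𝒢 _
  have h1 : HasMFDerivAt 𝓘(ℂ, V) 𝓘(ℂ, 𝒢.EP) (sec 𝒢) (𝒢.proj p)
      (mfderiv 𝓘(ℂ, V) 𝓘(ℂ, 𝒢.EP) (sec 𝒢) (𝒢.proj p)) :=
    ((contMDiff_sec 𝒢).mdifferentiable (by simp) (𝒢.proj p)).hasMFDerivAt
  have h2 : HasMFDerivAt 𝓘(ℂ, 𝒢.EP) 𝓘(ℂ, V) 𝒢.proj p
      (mfderiv 𝓘(ℂ, 𝒢.EP) 𝓘(ℂ, V) 𝒢.proj p) :=
    (𝒢.holomorphic_proj.mdifferentiable (by simp) p).hasMFDerivAt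
  have h3 := (h1.comp p h2).mfderiv
  have h4 : sec 𝒢 ∘ 𝒢.proj = id := by funext x; exact sec_proj 𝒢 x
  rw [h4] at h3
  have h5 : mfderiv 𝓘(ℂ, 𝒢.EP) 𝓘(ℂ, 𝒢.EP) (id : 𝒢.P → 𝒢.P) p =
      (ContinuousLinearMap.id ℂ 𝒢.EP : 𝒢.EP →L[ℂ] 𝒢.EP) := mfderiv_id
  have h6 : ∀ w : 𝒢.EP, (mfderiv 𝓘(ℂ, V) 𝓘(ℂ, 𝒢.EP) (sec 𝒢) (𝒢.proj p) : V →L[ℂ] 𝒢.EP)
      ((mfderiv 𝓘(ℂ, 𝒢.EP) 𝓘(ℂ, V) 𝒢.proj p : 𝒢.EP →L[ℂ] V) w) = w := by
    intro w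
    have := congrArg (fun T : 𝒢.EP →L[ℂ] 𝒢.EP => T w) (h5.symm.trans h3)
    exact this.symm
  have h7 : dlif 𝒢 v = (mfderiv 𝓘(ℂ, V) 𝓘(ℂ, 𝒢.EP) (sec 𝒢) (Tor.q L v) : V →L[ℂ] 𝒢.EP) := by
    have a1 : HasMFDerivAt 𝓘(ℂ, V) 𝓘(ℂ, 𝒢.EP) (sec 𝒢) (Tor.q L v)
        (mfderiv 𝓘(ℂ, V) 𝓘(ℂ, 𝒢.EP) (sec 𝒢) (Tor.q L v)) :=
      ((contMDiff_sec 𝒢).mdifferentiable (by simp) (Tor.q L v)).hasMFDerivAt
    have a2 : HasMFDerivAt 𝓘(ℂ, V) 𝓘(ℂ, V) (Tor.q L) v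
        (mfderiv 𝓘(ℂ, V) 𝓘(ℂ, V) (Tor.q L) v) :=
      ((Tor.contMDiff_q L).mdifferentiable (by simp) v).hasMFDerivAt
    have a3 := (a1.comp v a2).mfderiv
    have a4 : dlif 𝒢 v = ((mfderiv 𝓘(ℂ, V) 𝓘(ℂ, 𝒢.EP) (sec 𝒢) (Tor.q L v) : V →L[ℂ] 𝒢.EP)).comp
        (mfderiv 𝓘(ℂ, V) 𝓘(ℂ, V) (Tor.q L) v : V →L[ℂ] V) := a3
    rw [a4, Tor.mfderiv_q]
    exact ContinuousLinearMap.comp_id _
  refine ⟨(mfderiv 𝓘(ℂ, 𝒢.EP) 𝓘(ℂ, V) 𝒢.proj p : 𝒢.EP →L[ℂ] V) w, ?_⟩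
  rw [h7, ← hproj]
  exact h6 w

lemma pb_surjective (v : V) : Function.Surjective (pb 𝒢 v) :=
  (𝒢.bijective_form (lif 𝒢 v)).2.comp (dlif_surjective 𝒢 v)

/-- local expression -/
lemma pb_local (c : OpenPartialHomeomorph 𝒢.P 𝒢.EP) (hc : c ∈ atlas 𝒢.EP 𝒢.P) (v : V)
    (hv : lif 𝒢 v ∈ c.source) :
    ContDiffAt ℂ ω (fun u => c (lif 𝒢 u)) v ∧
    pb 𝒢 v = (coordForm EG G 𝒢.form c (c (lif 𝒢 v))).comp
      (fderiv ℂ (fun u => c (lif 𝒢 u)) v) := by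
  have hmax : c ∈ IsManifold.maximalAtlas 𝓘(ℂ, 𝒢.EP) ω 𝒢.P :=
    IsManifold.subset_maximalAtlas hc
  have h1 : ContMDiffAt 𝓘(ℂ, 𝒢.EP) 𝓘(ℂ, 𝒢.EP) ω c (lif 𝒢 v) :=
    (contMDiffOn_of_mem_maximalAtlas hmax).contMDiffAt (c.open_source.mem_nhds hv)
  have h2 : ContMDiffAt 𝓘(ℂ, V) 𝓘(ℂ, 𝒢.EP) ω (fun u => c (lif 𝒢 u)) v :=
    h1.comp v (contMDiff_lif 𝒢 v)
  have h3 := contMDiffAt_iff_contDiffAt.mp h2
  refine ⟨h3, ?_⟩
  have ht : c (lif 𝒢 v) ∈ c.target := c.map_source hv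
  have h4 : ContMDiffAt 𝓘(ℂ, 𝒢.EP) 𝓘(ℂ, 𝒢.EP) ω c.symm (c (lif 𝒢 v)) :=
    (contMDiffOn_symm_of_mem_maximalAtlas hmax).contMDiffAt (c.open_target.mem_nhds ht)
  have h5 : HasMFDerivAt 𝓘(ℂ, V) 𝓘(ℂ, 𝒢.EP) (c.symm ∘ fun u => c (lif 𝒢 u)) v
      ((mfderiv 𝓘(ℂ, 𝒢.EP) 𝓘(ℂ, 𝒢.EP) c.symm (c (lif 𝒢 v)) : 𝒢.EP →L[ℂ] 𝒢.EP).comp
      (mfderiv 𝓘(ℂ, V) 𝓘(ℂ, 𝒢.EP) (fun u => c (lif 𝒢 u)) v : V →L[ℂ] 𝒢.EP)) :=
    (h4.mdifferentiableAt (by simp)).hasMFDerivAt.comp v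
      (h2.mdifferentiableAt (by simp)).hasMFDerivAt
  have h6 : (c.symm ∘ fun u => c (lif 𝒢 u)) =ᶠ[𝓝 v] lif 𝒢 := by
    have : lif 𝒢 ⁻¹' c.source ∈ 𝓝 v :=
      (contMDiff_lif 𝒢).continuous.continuousAt.preimage_mem_nhds (c.open_source.mem_nhds hv)
    filter_upwards [this] with u hu
    exact c.left_inv hu
  have h7 := (h5.congr_of_eventuallyEq h6.symm).mfderiv
  have h7' : dlif 𝒢 v = (dsymm 𝒢 c (c (lif 𝒢 v))).comp
      (mfderiv 𝓘(ℂ, V) 𝓘(ℂ, 𝒢.EP) (fun u => c (lif 𝒢 u)) v : V →L[ℂ] 𝒢.EP) := h7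
  have h8 : dlif 𝒢 v = (dsymm 𝒢 c (c (lif 𝒢 v))).comp (fderiv ℂ (fun u => c (lif 𝒢 u)) v) :=
    h7'.trans (congrArg (fun T : V →L[ℂ] 𝒢.EP => (dsymm 𝒢 c (c (lif 𝒢 v))).comp T)
      mfderiv_eq_fderiv)
  have h9 : coordForm EG G 𝒢.form c (c (lif 𝒢 v)) = (fE 𝒢 (c.symm (c (lif 𝒢 v)))).comp
      (dsymm 𝒢 c (c (lif 𝒢 v))) := rfl
  rw [pb, h8, h9, c.left_inv hv]
  rfl

lemma pb_eventually (c : OpenPartialHomeomorph 𝒢.P 𝒢.EP) (hc : c ∈ atlas 𝒢.EP 𝒢.P) (v : V)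
    (hv : lif 𝒢 v ∈ c.source) :
    pb 𝒢 =ᶠ[𝓝 v] fun u => (coordForm EG G 𝒢.form c (c (lif 𝒢 u))).comp
      (fderiv ℂ (fun u => c (lif 𝒢 u)) u) := by
  have : lif 𝒢 ⁻¹' c.source ∈ 𝓝 v :=
    (contMDiff_lif 𝒢).continuous.continuousAt.preimage_mem_nhds (c.open_source.mem_nhds hv)
  filter_upwards [this] with u hu
  exact (pb_local 𝒢 c hc u hu).2

lemma differentiable_pb : Differentiable ℂ (pb 𝒢) := by
  intro v
  have hc := chart_mem_atlas 𝒢.EP (lif 𝒢 v)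
  have hv := mem_chart_source 𝒢.EP (lif 𝒢 v)
  set c := chartAt 𝒢.EP (lif 𝒢 v)
  have h1 := pb_eventually 𝒢 c hc v hv
  obtain ⟨h2, -⟩ := pb_local 𝒢 c hc v hv
  have ht : c (lif 𝒢 v) ∈ c.target := c.map_source hv
  have h3 : ContDiffAt ℂ ω (coordForm EG G 𝒢.form c) (c (lif 𝒢 v)) :=
    (𝒢.holomorphic_form c hc).contDiffAt (c.open_target.mem_nhds ht)
  have h4 : DifferentiableAt ℂ (fun u => coordForm EG G 𝒢.form c (c (lif 𝒢 u))) v :=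
    DifferentiableAt.comp (f := fun u => c (lif 𝒢 u)) v (h3.differentiableAt (by simp))
      (h2.differentiableAt (by simp))
  have h5 : DifferentiableAt ℂ (fderiv ℂ (fun u => c (lif 𝒢 u))) v :=
    (h2.fderiv_right (m := 1) (by simp)).differentiableAt (by simp)
  exact (h4.clm_comp h5).congr_of_eventuallyEq h1

lemma lif_add {v l : V} (hl : l ∈ L) : lif 𝒢 (v + l) = lif 𝒢 v := by
  rw [lif, lif, Tor.q_add hl]

lemma dlif_add {v l : V} (hl : l ∈ L) : dlif 𝒢 (v + l) = dlif 𝒢 v := by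
  have h1 : HasMFDerivAt 𝓘(ℂ, V) 𝓘(ℂ, 𝒢.EP) (lif 𝒢) (v + l) (dlif 𝒢 (v + l)) :=
    ((contMDiff_lif 𝒢).mdifferentiable (by simp) (v + l)).hasMFDerivAt
  have h2 : HasMFDerivAt 𝓘(ℂ, V) 𝓘(ℂ, V) (fun u : V => u + l) v (ContinuousLinearMap.id ℂ V) :=
    ((hasFDerivAt_id v).add_const l).hasMFDerivAt
  have h3 := (HasMFDerivAt.comp (f := fun u : V => u + l) v h1 h2).mfderiv
  have h4 : (lif 𝒢 ∘ fun u : V => u + l) = lif 𝒢 := by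
    funext u; exact lif_add 𝒢 hl
  rw [h4] at h3
  exact h3.symm

lemma pb_add {v l : V} (hl : l ∈ L) : pb 𝒢 (v + l) = pb 𝒢 v := by
  rw [pb, pb, lif_add 𝒢 hl, dlif_add 𝒢 hl]

lemma pb_bounded [CompactSpace (Tor L)] : Bornology.IsBounded (range (pb 𝒢)) := by
  set A : Tor L → (V →L[ℂ] EG) := fun x => pb 𝒢 (Function.surjInv (Tor.q_surjective (L := L)) x)
    with hA
  have h1 : A ∘ Tor.q L = pb 𝒢 := by
    funext v
    have h2 : Tor.q L (Function.surjInv (Tor.q_surjective (L := L)) (Tor.q L v)) = Tor.q L v :=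
      Function.surjInv_eq _ _
    have h3 := Tor.q_eq_iff.mp h2.symm
    have h4 : Function.surjInv (Tor.q_surjective (L := L)) (Tor.q L v) =
        v + (Function.surjInv (Tor.q_surjective (L := L)) (Tor.q L v) - v) := by abel
    simp only [Function.comp, hA]
    rw [h4, pb_add 𝒢 h3]
  have h2 : Continuous A := by
    rw [Tor.isQuotientMap_q.continuous_iff, h1]
    exact (differentiable_pb 𝒢).continuous
  have h3 : range (pb 𝒢) ⊆ range A := by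
    rw [← h1]
    exact range_comp_subset_range _ _
  exact (isCompact_range h2).isBounded.subset h3

lemma pb_const [CompactSpace (Tor L)] (v : V) : pb 𝒢 v = pb 𝒢 0 :=
  (differentiable_pb 𝒢).apply_eq_apply_of_bounded (pb_bounded 𝒢) v 0

/-- A flat Cartan geometry with trivial structure group on a complex torus has an abelian Lie
algebra. -/
theorem abelian_of_flat [CompactSpace (Tor L)] (hflat : 𝒢.IsFlat) (a b : EG) :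
    lieBr EG G a b = 0 := by
  obtain ⟨u, rfl⟩ := pb_surjective 𝒢 0 a
  obtain ⟨w, rfl⟩ := pb_surjective 𝒢 0 b
  have hc := chart_mem_atlas 𝒢.EP (lif 𝒢 0)
  have hv := mem_chart_source 𝒢.EP (lif 𝒢 0)
  set c := chartAt 𝒢.EP (lif 𝒢 0)
  have h1 := pb_eventually 𝒢 c hc 0 hv
  obtain ⟨h2, h2'⟩ := pb_local 𝒢 c hc 0 hv
  set g : V → 𝒢.EP := fun u => c (lif 𝒢 u) with hg
  set B : 𝒢.EP → 𝒢.EP →L[ℂ] EG := coordForm EG G 𝒢.form c with hB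
  have ht : g 0 ∈ c.target := c.map_source hv
  have h3 : ContDiffAt ℂ ω B (g 0) :=
    (𝒢.holomorphic_form c hc).contDiffAt (c.open_target.mem_nhds ht)
  have hBd : HasFDerivAt B (fderiv ℂ B (g 0)) (g 0) := (h3.differentiableAt (by simp)).hasFDerivAt
  have hgd : HasFDerivAt g (fderiv ℂ g 0) 0 := (h2.differentiableAt (by simp)).hasFDerivAt
  have hgdd : HasFDerivAt (fderiv ℂ g) (fderiv ℂ (fderiv ℂ g) 0) 0 :=
    ((h2.fderiv_right (m := 1) (by simp)).differentiableAt (by simp)).hasFDerivAt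
  have h4 : HasFDerivAt (fun u => (B (g u)).comp (fderiv ℂ g u)) (0 : V →L[ℂ] V →L[ℂ] EG) 0 := by
    have : (fun u => (B (g u)).comp (fderiv ℂ g u)) =ᶠ[𝓝 (0 : V)] fun _ => pb 𝒢 0 := by
      filter_upwards [h1] with u hu
      rw [← hu]
      exact pb_const 𝒢 u
    exact (hasFDerivAt_const (pb 𝒢 0) (0 : V)).congr_of_eventuallyEq this
  have h5 := (hBd.comp (0 : V) hgd).clm_comp hgdd
  have h6 := h5.unique h4
  have h7 : ∀ x y : V, (fderiv ℂ B (g 0) (fderiv ℂ g 0 x)) (fderiv ℂ g 0 y) +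
      B (g 0) (fderiv ℂ (fderiv ℂ g) 0 x y) = 0 := by
    intro x y
    have := congrArg (fun T : V →L[ℂ] V →L[ℂ] EG => T x y) h6
    simpa [add_comm] using this
  have h8 : fderiv ℂ (fderiv ℂ g) 0 u w = fderiv ℂ (fderiv ℂ g) 0 w u := by
    have := h2.isSymmSndFDerivAt (by simp)
    exact this u w
  have h9 := hflat c hc (g 0) ht (fderiv ℂ g 0 u) (fderiv ℂ g 0 w)
  have h10 := h7 u w
  have h11 := h7 w u
  rw [h8] at h10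
  have h12 : (fderiv ℂ B (g 0) (fderiv ℂ g 0 u)) (fderiv ℂ g 0 w) -
      (fderiv ℂ B (g 0) (fderiv ℂ g 0 w)) (fderiv ℂ g 0 u) = 0 := by
    have := h10.trans h11.symm
    rw [sub_eq_zero]
    exact add_right_cancel this
  rw [h12, zero_add] at h9
  rw [h2']
  exact h9

end

end Pool.Agent.H281R3.Cartan
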