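import Mathlib

/-!
# Holomorphic Cartan geometries, flatness, and Kaehler metrics: definitions

Conventions. In Mathlib the tangent space `TangentSpace 𝓘(ℂ, E) x` of a complex manifold modelled on
the vector space `E` is the vector space `E`, through the preferred chart at `x`, and `mfderiv` is
the derivative. The Lie algebra of a Lie group `G` is `GroupLieAlgebra 𝓘(ℂ, E) G`, the tangent space
at the identity with the bracket of left invariant vector fields.
-/

set_option autoImplicit false

open scoped Manifold ContDiff Topology
open Set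

namespace Pool.Agent.H281R3.CartanS

/-- A complex manifold `X`, with charts in the finite dimensional complex vector space `E`. -/
structure CMfd where
  /-- the model space, which is also every tangent space -/
  E : Type
  [instN : NormedAddCommGroup E]
  [instS : NormedSpace ℂ E]
  [instF : FiniteDimensional ℂ E]
  /-- the manifold -/
  X : Type
  [instT : TopologicalSpace X]
  [instC : ChartedSpace E X]
  [instM : IsManifold 𝓘(ℂ, E) ω X]

attribute [instance] CMfd.instN CMfd.instS CMfd.instF CMfd.instT CMfd.instC CMfd.instM

/-- A complex Lie group. -/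
structure CLie extends CMfd where
  [instG : Group X]
  [instL : LieGroup 𝓘(ℂ, E) ω X]

attribute [instance] CLie.instG CLie.instL

/-- `f : M → N` is holomorphic. -/
def Hol (M N : CMfd) (f : M.X → N.X) : Prop := ContMDiff 𝓘(ℂ, M.E) 𝓘(ℂ, N.E) ω f

/-- The derivative of `f : M → N` at `x`. -/
noncomputable def D (M N : CMfd) (f : M.X → N.X) (x : M.X) : M.E →L[ℂ] N.E :=
  mfderiv 𝓘(ℂ, M.E) 𝓘(ℂ, N.E) f x

/-- The derivative of the inverse of the chart `c` of `M` at the point `x` of the model space. -/
noncomputable def Dsymm (M : CMfd) (c : OpenPartialHomeomorph M.X M.E) (x : M.E) :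
    M.E →L[ℂ] M.E :=
  mfderiv 𝓘(ℂ, M.E) 𝓘(ℂ, M.E) c.symm x

/-- The homomorphism `ι : H → G` identifies the complex Lie group `H` with a closed complex Lie
subgroup of the complex Lie group `G`: it is holomorphic, a homeomorphism onto a closed subset, and
an immersion. -/
structure IsClosedLieSubgroup (G H : CLie) (ι : H.X →* G.X) : Prop where
  holomorphic : Hol H.toCMfd G.toCMfd ι
  isClosedEmbedding : Topology.IsClosedEmbedding ι
  immersion : ∀ h : H.X, Function.Injective (D H.toCMfd G.toCMfd ι h)

/-- The adjoint action of `g` on the Lie algebra of `G`: the derivative at `1` of the conjugation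
`x ↦ g x g⁻¹`. -/
noncomputable def Ad (G : CLie) (g : G.X) : G.E →L[ℂ] G.E :=
  D G.toCMfd G.toCMfd (fun x => g * x * g⁻¹) 1

/-- The bracket of the Lie algebra of `G`, as an operation on the model space of `G`. -/
noncomputable def lieBr (G : CLie) (a b : G.E) : G.E :=
  @Bracket.bracket (GroupLieAlgebra 𝓘(ℂ, G.E) G.X) (GroupLieAlgebra 𝓘(ℂ, G.E) G.X) _ a b

/-- `Φ` is a holomorphic trivialization over the open set `U` of the map `proj : P → M` with the
right action `act` of `H`: a biholomorphic map `proj ⁻¹ U → U × H` of the form `Φ p = (proj p, *)`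
with `Φ (p · h) = Φ p · h`. -/
structure IsTrivialization (H : CLie) (M P : CMfd) (proj : P.X → M.X) (act : P.X → H.X → P.X)
    (U : Set M.X) (Φ : OpenPartialHomeomorph P.X (M.X × H.X)) : Prop where
  source_eq : Φ.source = proj ⁻¹' U
  target_eq : Φ.target = U ×ˢ univ
  holomorphic : ContMDiffOn 𝓘(ℂ, P.E) (𝓘(ℂ, M.E).prod 𝓘(ℂ, H.E)) ω Φ Φ.source
  holomorphic_symm : ContMDiffOn (𝓘(ℂ, M.E).prod 𝓘(ℂ, H.E)) 𝓘(ℂ, P.E) ω Φ.symm Φ.target
  fst_eq : ∀ p ∈ Φ.source, (Φ p).1 = proj p
  map_act : ∀ p ∈ Φ.source, ∀ h : H.X, act p h ∈ Φ.source ∧ Φ (act p h) = ((Φ p).1, (Φ p).2 * h)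

/-- The right action `act` of `H` on `P` is holomorphic. -/
def HolAct (H : CLie) (P : CMfd) (act : P.X → H.X → P.X) : Prop :=
  ContMDiff (𝓘(ℂ, P.E).prod 𝓘(ℂ, H.E)) 𝓘(ℂ, P.E) ω (fun q : P.X × H.X => act q.1 q.2)

/-- A holomorphic principal right `H`-bundle `proj : P → M`, with action `act p h = p · h`. -/
structure PrincipalBundle (H : CLie) (M : CMfd) where
  /-- the total space -/
  P : CMfd
  /-- the projection -/
  proj : P.X → M.X
  /-- the right action -/
  act : P.X → H.X → P.X
  act_one : ∀ p, act p 1 = p
  act_mul : ∀ p h h', act p (h * h') = act (act p h) h'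
  holomorphic_proj : Hol P M proj
  holomorphic_act : HolAct H P act
  locally_trivial : ∀ m : M.X, ∃ U : Set M.X, IsOpen U ∧ m ∈ U ∧ ∃ Φ,
    IsTrivialization H M P proj act U Φ

/-- A one-form on the complex manifold `P` with values in the Lie algebra of `G`: a linear map from
the tangent space at each point `p` to the Lie algebra of `G`. -/
abbrev Form (G : CLie) (P : CMfd) : Type := P.X → P.E →L[ℂ] G.E

/-- The coordinate expression of the one-form `α` in the chart `c` of `P`: the form at the point
with coordinates `x`, composed with the derivative of the inverse chart. -/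
noncomputable def coordForm (G : CLie) (P : CMfd) (α : Form G P)
    (c : OpenPartialHomeomorph P.X P.E) (x : P.E) : P.E →L[ℂ] G.E :=
  (α (c.symm x)).comp (Dsymm P c x)

/-- The one-form `α` is holomorphic: its coordinate expressions in all charts are. -/
def HolForm (G : CLie) (P : CMfd) (α : Form G P) : Prop :=
  ∀ c ∈ atlas P.E P.X, ContDiffOn ℂ ω (coordForm G P α c) c.target

/-- The one-form `α` on the total space of the principal bundle `B` satisfies
`R_h^* α = Ad(h⁻¹) α`, where `R_h p = p · h`. -/
def Equivariant (G H : CLie) (ι : H.X →* G.X) (M : CMfd) (B : PrincipalBundle H M)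
    (α : Form G B.P) : Prop :=
  ∀ (p : B.P.X) (h : H.X) (v : B.P.E),
    α (B.act p h) (D B.P B.P (fun q => B.act q h) p v) = Ad G (ι h)⁻¹ (α p v)

/-- The one-form `α` on the total space of the principal bundle `B` takes the value `A` on the
fundamental vector field of every element `A` of the Lie algebra of `H`; the value at `p` of this
vector field is the derivative at `1` of `h ↦ p · h` applied to `A`. -/
def Vertical (G H : CLie) (ι : H.X →* G.X) (M : CMfd) (B : PrincipalBundle H M)
    (α : Form G B.P) : Prop :=
  ∀ (p : B.P.X) (A : H.E), α p (D H.toCMfd B.P (B.act p) 1 A) = D H.toCMfd G.toCMfd ι 1 A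

/-- A holomorphic Cartan geometry on the complex manifold `M` modelled on `G / H`, where `H` is
embedded in `G` by `ι`: a holomorphic principal right `H`-bundle with a holomorphic one-form on its
total space with values in the Lie algebra of `G`, such that the form is an isomorphism on every
tangent space, is equivariant, and reproduces the elements of the Lie algebra of `H`. -/
structure CartanGeometry (G H : CLie) (ι : H.X →* G.X) (M : CMfd) where
  /-- the principal bundle -/
  B : PrincipalBundle H M
  /-- the one-form -/
  form : Form G B.P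
  holomorphic_form : HolForm G B.P form
  bijective_form : ∀ p, Function.Bijective (form p)
  equivariant : Equivariant G H ι M B form
  vertical : Vertical G H ι M B form

/-- The derivative at `x`, in the direction `u`, of the one-form `α` on a vector space, evaluated
on the vector `v`: `(∂_u α)(v)`. -/
noncomputable def dirDer {E F : Type} [NormedAddCommGroup E] [NormedSpace ℂ E]
    [NormedAddCommGroup F] [NormedSpace ℂ F] (α : E → E →L[ℂ] F) (x u v : E) : F :=
  fderiv ℂ α x u v

/-- The exterior derivative at `x` of the one-form `α` on a vector space, on the vectors `u` and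
`v`: `dα(u, v) = (∂_u α)(v) - (∂_v α)(u)`. -/
noncomputable def extDer {E F : Type} [NormedAddCommGroup E] [NormedSpace ℂ E]
    [NormedAddCommGroup F] [NormedSpace ℂ F] (α : E → E →L[ℂ] F) (x u v : E) : F :=
  dirDer α x u v - dirDer α x v u

/-- The curvature `dα + ½[α, α]` of the one-form `α` on `P`, in the chart `c` of `P`, at the point
`x` of the model space, on the vectors `u` and `v`: `dα(u, v) + [α(u), α(v)]`. -/
noncomputable def curvature (G : CLie) (P : CMfd) (α : Form G P)
    (c : OpenPartialHomeomorph P.X P.E) (x u v : P.E) : G.E :=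
  extDer (coordForm G P α c) x u v + lieBr G (coordForm G P α c x u) (coordForm G P α c x v)

/-- The geometry is flat: its curvature vanishes, in every chart of the total space. -/
def CartanGeometry.IsFlat {G H : CLie} {ι : H.X →* G.X} {M : CMfd}
    (𝒢 : CartanGeometry G H ι M) : Prop :=
  ∀ c ∈ atlas 𝒢.B.P.E 𝒢.B.P.X, ∀ x ∈ c.target, ∀ u v : 𝒢.B.P.E,
    curvature G 𝒢.B.P 𝒢.form c x u v = 0

/-- `h` is a positive definite hermitian form on the complex vector space `E`, conjugate linear in
the first argument. -/
structure IsHermitian (E : Type) [NormedAddCommGroup E] [NormedSpace ℂ E] (h : E → E → ℂ) :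
    Prop where
  add_right : ∀ u v w, h u (v + w) = h u v + h u w
  smul_right : ∀ u (a : ℂ) v, h u (a • v) = a * h u v
  conj_symm : ∀ u v, (starRingEnd ℂ) (h v u) = h u v
  pos : ∀ u, u ≠ 0 → 0 < (h u u).re

/-- The real two-form on the vector space `E` whose value at `y` on the vectors `u`, `v` is
`Ω u v y` is closed at `y`: `∂_u Ω(v, w) + ∂_v Ω(w, u) + ∂_w Ω(u, v) = 0`. -/
def ClosedAt (E : Type) [NormedAddCommGroup E] [NormedSpace ℂ E] (Ω : E → E → E → ℝ) (y : E) :
    Prop :=
  ∀ u v w : E, fderiv ℝ (Ω v w) y u + fderiv ℝ (Ω w u) y v + fderiv ℝ (Ω u v) y w = 0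

/-- The coordinate expression in the chart `c` of a field `h` of forms on the tangent spaces: the
value at `y` on the vectors `u`, `v`. -/
noncomputable def coordHerm (M : CMfd) (h : M.X → M.E → M.E → ℂ)
    (c : OpenPartialHomeomorph M.X M.E) (u v y : M.E) : ℂ :=
  h (c.symm y) (Dsymm M c y u) (Dsymm M c y v)

/-- A Kaehler metric on the complex manifold `M`: a smooth field of positive definite hermitian
forms on the tangent spaces whose fundamental two-form, the imaginary part, is closed. -/
structure KahlerMetric (M : CMfd) where
  /-- the hermitian form on the tangent space at `x` -/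
  herm : M.X → M.E → M.E → ℂ
  hermitian : ∀ x, IsHermitian M.E (herm x)
  smooth : ∀ c ∈ atlas M.E M.X, ∀ u v : M.E, ContDiffOn ℝ ∞ (coordHerm M herm c u v) c.target
  closed : ∀ c ∈ atlas M.E M.X, ∀ y ∈ c.target,
    ClosedAt M.E (fun u v y => (coordHerm M herm c u v y).im) y

/-- The assertion of the question: for every complex Lie group `G`, every closed complex Lie
subgroup `H` of `G` and every compact Kaehler manifold `M` (compact, connected, Hausdorff), if `M`
carries a holomorphic `G/H`-geometry then it carries a flat holomorphic `G/H`-geometry. -/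
def FlatnessConjecture : Prop :=
  ∀ (G H : CLie) [T2Space G.X] [SecondCountableTopology G.X] (ι : H.X →* G.X),
    IsClosedLieSubgroup G H ι →
  ∀ (M : CMfd) [T2Space M.X] [CompactSpace M.X] [ConnectedSpace M.X],
    Nonempty (KahlerMetric M) → Nonempty (CartanGeometry G H ι M) →
      ∃ 𝒢 : CartanGeometry G H ι M, 𝒢.IsFlat

end Pool.Agent.H281R3.CartanS
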