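import Pool.Agent.H281R3.Cartan.Defs

/-! Complex tori `V / L` as complex manifolds. -/

set_option autoImplicit false
set_option linter.unusedSectionVars false

open scoped Manifold ContDiff Topology
open Set

namespace Pool.Agent.H281R3.Cartan

section

variable {V : Type} [NormedAddCommGroup V] [NormedSpace ℂ V]

/-- The quotient of the vector space `V` by the additive subgroup `L`. -/
def Tor (L : AddSubgroup V) : Type := V ⧸ L

variable (L : AddSubgroup V)

instance : TopologicalSpace (Tor L) := inferInstanceAs (TopologicalSpace (V ⧸ L))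

/-- the projection `V → V / L` -/
def Tor.q (v : V) : Tor L := QuotientAddGroup.mk (s := L) v

variable {L}

lemma Tor.q_eq_iff {v w : V} : Tor.q L v = Tor.q L w ↔ w - v ∈ L := by
  have : Tor.q L v = Tor.q L w ↔ -v + w ∈ L := QuotientAddGroup.eq
  rw [this, sub_eq_neg_add]

lemma Tor.q_surjective : Function.Surjective (Tor.q L) := QuotientAddGroup.mk_surjective

lemma Tor.continuous_q : Continuous (Tor.q L) := continuous_quotient_mk'

lemma Tor.isQuotientMap_q : Topology.IsQuotientMap (Tor.q L) := isQuotientMap_quotient_mk'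

lemma Tor.q_add {v l : V} (hl : l ∈ L) : Tor.q L (v + l) = Tor.q L v := by
  rw [Tor.q_eq_iff]
  have : v - (v + l) = -l := by abel
  rw [this]
  exact L.neg_mem hl

variable (L)

lemma Tor.isLocalHomeomorph_q [DiscreteTopology L] : IsLocalHomeomorph (Tor.q L) :=
  (AddSubgroup.isAddQuotientCoveringMap_of_comm L
    ⟨inferInstance⟩).isCoveringMap.isLocalHomeomorph

noncomputable instance [DiscreteTopology L] : ChartedSpace V (Tor L) :=
  (Tor.isLocalHomeomorph_q L).chartedSpace Tor.q_surjective

lemma Tor.mem_atlas [DiscreteTopology L] (e : OpenPartialHomeomorph (Tor L) V)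
    (he : e ∈ atlas V (Tor L)) :
    ∃ x : V, e = (Tor.isLocalHomeomorph_q L).localInverseAt x := by
  obtain ⟨y, rfl⟩ := he
  refine ⟨(Tor.q_surjective (L := L)).hasRightInverse.choose y, ?_⟩
  rw [chartAt_self_eq, OpenPartialHomeomorph.trans_refl]

lemma Tor.symm_eq [DiscreteTopology L] (e : OpenPartialHomeomorph (Tor L) V)
    (he : e ∈ atlas V (Tor L)) : (e.symm : V → Tor L) = Tor.q L := by
  obtain ⟨x, rfl⟩ := Tor.mem_atlas L e he
  exact (Tor.isLocalHomeomorph_q L).localInverseAt_symm x

/-- near every point, a chart composed with the projection is a translation -/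
lemma Tor.chart_near [DiscreteTopology L] (e : OpenPartialHomeomorph (Tor L) V)
    (he : e ∈ atlas V (Tor L)) (v : V) (hv : Tor.q L v ∈ e.source) :
    ∃ l : V, ∀ᶠ u in 𝓝 v, e (Tor.q L u) = u + l := by
  obtain ⟨x, rfl⟩ := Tor.mem_atlas L e he
  set hl := Tor.isLocalHomeomorph_q L
  set w := hl.localInverseAt x (Tor.q L v) with hw
  have hqw : Tor.q L w = Tor.q L v := hl.apply_localInverseAt_of_mem hv
  have hwt : w ∈ (hl.localInverseAt x).target := (hl.localInverseAt x).map_source hv
  have hL : v - w ∈ L := Tor.q_eq_iff.mp hqw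
  refine ⟨w - v, ?_⟩
  have hc : Continuous fun u : V => u + (w - v) := continuous_id.add continuous_const
  have h1 : ∀ᶠ u in 𝓝 v, u + (w - v) ∈ (hl.localInverseAt x).target := by
    have : v + (w - v) ∈ (hl.localInverseAt x).target := by
      have : v + (w - v) = w := by abel
      rw [this]; exact hwt
    exact hc.continuousAt.preimage_mem_nhds ((hl.localInverseAt x).open_target.mem_nhds this)
  have h2 : ∀ᶠ u in 𝓝 v, Tor.q L u ∈ (hl.localInverseAt x).source :=
    Tor.continuous_q.continuousAt.preimage_mem_nhds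
      ((hl.localInverseAt x).open_source.mem_nhds hv)
  filter_upwards [h1, h2] with u hu1 hu2
  apply hl.injOn_localInverseAt_target (x := x)
  · exact (hl.localInverseAt x).map_source hu2
  · exact hu1
  · rw [hl.apply_localInverseAt_of_mem hu2]
    rw [Tor.q_add]
    have : w - v = -(v - w) := by abel
    rw [this]
    exact L.neg_mem hL

instance [DiscreteTopology L] : IsManifold 𝓘(ℂ, V) ω (Tor L) := by
  apply isManifold_of_contDiffOn
  intro e e' he he'
  intro v hv
  simp only [modelWithCornersSelf_coe, modelWithCornersSelf_coe_symm, preimage_id_eq, id_eq,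
    range_id, inter_univ, OpenPartialHomeomorph.coe_trans, Function.comp_def] at hv ⊢
  rw [OpenPartialHomeomorph.trans_source] at hv
  rw [Tor.symm_eq L e he]
  have hv2 : Tor.q L v ∈ e'.source := by
    have := hv.2
    rwa [mem_preimage, Tor.symm_eq L e he] at this
  obtain ⟨l, hl⟩ := Tor.chart_near L e' he' v hv2
  have h1 : ContDiffAt ℂ ω (fun u => e' (Tor.q L u)) v :=
    (contDiffAt_id.add contDiffAt_const).congr_of_eventuallyEq hl
  exact h1.contDiffWithinAt

lemma Tor.contMDiff_q [DiscreteTopology L] : ContMDiff 𝓘(ℂ, V) 𝓘(ℂ, V) ω (Tor.q L) := by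
  intro v
  have hc := chart_mem_atlas V (Tor.q L v)
  have hmem := mem_chart_source V (Tor.q L v)
  rw [contMDiffAt_iff]
  refine ⟨Tor.continuous_q.continuousAt, ?_⟩
  obtain ⟨l, hl⟩ := Tor.chart_near L _ hc v hmem
  have h1 : ContDiffAt ℂ ω (fun u => chartAt V (Tor.q L v) (Tor.q L u)) v :=
    (contDiffAt_id.add contDiffAt_const).congr_of_eventuallyEq hl
  exact h1.contDiffWithinAt

lemma Tor.mfderiv_q [DiscreteTopology L] (v : V) :
    mfderiv 𝓘(ℂ, V) 𝓘(ℂ, V) (Tor.q L) v = (ContinuousLinearMap.id ℂ V : V →L[ℂ] V) := by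
  apply HasMFDerivAt.mfderiv
  refine ⟨Tor.continuous_q.continuousAt, ?_⟩
  have hc := chart_mem_atlas V (Tor.q L v)
  have hmem := mem_chart_source V (Tor.q L v)
  obtain ⟨l, hl⟩ := Tor.chart_near L _ hc v hmem
  have h1 : HasFDerivAt (fun y : V => y + l) (ContinuousLinearMap.id ℂ V) v :=
    (hasFDerivAt_id v).add_const l
  have h2 : HasFDerivAt (fun u => chartAt V (Tor.q L v) (Tor.q L u))
      (ContinuousLinearMap.id ℂ V) v := h1.congr_of_eventuallyEq hl
  exact h2.hasFDerivWithinAt

lemma Tor.mfderiv_symm [DiscreteTopology L] (e : OpenPartialHomeomorph (Tor L) V)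
    (he : e ∈ atlas V (Tor L)) (v : V) :
    mfderiv 𝓘(ℂ, V) 𝓘(ℂ, V) e.symm v = (ContinuousLinearMap.id ℂ V : V →L[ℂ] V) := by
  rw [Tor.symm_eq L e he]
  exact Tor.mfderiv_q L v

instance [DiscreteTopology L] : T2Space (Tor L) := by
  have : IsClosed (L : Set V) := AddSubgroup.isClosed_of_discrete
  exact inferInstanceAs (T2Space (V ⧸ L))

instance : ConnectedSpace (Tor L) := by
  have : ConnectedSpace V := inferInstance
  exact (Tor.q_surjective (L := L)).connectedSpace Tor.continuous_q

end

section Kahler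

variable {V : Type} [NormedAddCommGroup V] [InnerProductSpace ℂ V] (L : AddSubgroup V)
  [DiscreteTopology L]

/-- the inner product of `V` -/
noncomputable def ip (u v : V) : ℂ := inner ℂ u v

lemma Tor.herm_const (c : OpenPartialHomeomorph (Tor L) V) (hc : c ∈ atlas V (Tor L)) (u v : V) :
    (fun y : V => ip (V := V) (mfderiv 𝓘(ℂ, V) 𝓘(ℂ, V) c.symm y u)
        (mfderiv 𝓘(ℂ, V) 𝓘(ℂ, V) c.symm y v)) = fun _ => ip u v := by
  funext y
  rw [Tor.mfderiv_symm L c hc y]
  rfl

/-- The flat Kaehler metric of a complex torus. -/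
noncomputable def Tor.kahler : KahlerMetric V (Tor L) where
  herm _ u v := ip (V := V) u v
  add_right _ u v w := inner_add_right (𝕜 := ℂ) (E := V) u v w
  smul_right _ u a v := inner_smul_right (𝕜 := ℂ) (E := V) u v a
  conj_symm _ u v := inner_conj_symm (𝕜 := ℂ) (E := V) u v
  pos _ u hu := by
    have h : ∀ u : V, u ≠ 0 → 0 < (ip (V := V) u u).re := by
      intro u hu
      have h : ip (V := V) u u = ((‖u‖ ^ 2 : ℝ) : ℂ) := by
        rw [ip, inner_self_eq_norm_sq_to_K]; norm_cast
      rw [h, Complex.ofReal_re]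
      have : 0 < ‖u‖ := norm_pos_iff.mpr hu
      positivity
    exact h u hu
  smooth c hc u v := by
    rw [Tor.herm_const L c hc u v]
    exact contDiffOn_const
  closed c hc y _ u v w := by
    have key : ∀ a b : V, fderiv ℝ (fun y : V =>
        (ip (V := V) (mfderiv 𝓘(ℂ, V) 𝓘(ℂ, V) c.symm y a)
        (mfderiv 𝓘(ℂ, V) 𝓘(ℂ, V) c.symm y b)).im) y = 0 := by
      intro a b
      have : (fun y : V => (ip (V := V) (mfderiv 𝓘(ℂ, V) 𝓘(ℂ, V) c.symm y a)
        (mfderiv 𝓘(ℂ, V) 𝓘(ℂ, V) c.symm y b)).im) = fun _ => (ip a b).im := by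
        funext y
        exact congrArg Complex.im (congrFun (Tor.herm_const L c hc a b) y)
      rw [this]
      exact fderiv_const_apply _
    rw [key v w, key w u, key u v]
    simp

end Kahler

end Pool.Agent.H281R3.Cartan
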